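import Pool.Agent.Q93.SP.Fin

/-!
MP_cdf40b_al, Q1: the restriction of the representation `Π_{a,b,0}` of `Sp_6` to `SL_2 × SL_2 × SL_2`.
The definitions are in `Pool/Agent/Q93/SP/Fin.lean`.
-/

set_option autoImplicit false

namespace Pool.Agent.Results.MP_cdf40b_al.BranchingSp6

open Q93SP

/-- For all `a, b ≥ 0`: the character of `Π_{a,b,0}` given by Weyl's formula is the character of exactly one
sum `⊕ m(r,s,t) π_{r,s,t}`, and `m = μ_{a,b}`. -/
theorem result : ∀ a b : ℕ, (∃ m : ℕ × ℕ × ℕ →₀ ℕ, IsRestriction a b 0 m) ∧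
    ∀ m : ℕ × ℕ × ℕ →₀ ℕ, IsRestriction a b 0 m ↔ ∀ x, m x = mu a b x :=
  fun a b => ⟨main_exists a b, main a b⟩

end Pool.Agent.Results.MP_cdf40b_al.BranchingSp6
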